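import Pool.Agent.W71.TwoDeg

/-! Transcendental real numbers with a prescribed exponent of simultaneous approximation. -/

set_option autoImplicit false

open Polynomial Set

namespace Pool.Agent.TH970.SE

open Pool.Agent.W71

/-- the set of good denominators -/
def QSet (n : ℕ) (ξ m : ℝ) : Set ℕ := {q : ℕ | 0 < q ∧ ∃ p : ℕ → ℤ, ∀ i ∈ Finset.Icc 1 n,
  |(q : ℝ) * ξ ^ i - (p i : ℝ)| ≤ (q : ℝ) ^ (-m)}

theorem lam_real {n : ℕ} (hn : 1 ≤ n) (l : ℝ) (hl : 1 / (n : ℝ) ≤ l) (av : ℕ → ℝ) :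
    ∃ ξ : ℝ, (∀ k, ξ ≠ av k) ∧ (∀ m : ℝ, m < l → (QSet n ξ m).Infinite) ∧
      (∀ m : ℝ, l < m → (QSet n ξ m).Finite) := by
  classical
  have hn0 : (0 : ℝ) < n := by exact_mod_cast hn
  have hn1 : (1 : ℝ) ≤ n := by exact_mod_cast hn
  have hl0 : 0 < l := lt_of_lt_of_le (by positivity) hl
  have hl1 : 0 < l + 1 := by linarith
  have hnl : 1 ≤ n * l := by
    rw [div_le_iff₀ hn0] at hl
    linarith
  obtain ⟨ℓ, hℓ, hℓp⟩ := Nat.exists_infinite_primes ((n + 1) * n + 1)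
  have : Fact ℓ.Prime := ⟨hℓp⟩
  have hℓ' : (n + 1) * n < ℓ := by omega
  set A : ℝ := n * l + n - 1 with hA
  set νd : ℝ := (n * l - 1) / (l + 1) with hνd
  have hAn : (n : ℝ) ≤ A := by rw [hA]; linarith
  have hA1 : 0 < A + 1 := by linarith
  have hνp0 : 0 ≤ (A - n) / (A + 1) := div_nonneg (by linarith) hA1.le
  have hνd0 : 0 ≤ νd := div_nonneg (by linarith) hl1.le
  have hRA : Rich n ℓ 0 (1 + A) ((A - n) / (A + 1)) νd := by
    apply richA hn hℓ' A _ νd hAn le_rfl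
    rw [hνd, mul_div_assoc', div_le_div_iff₀ hA1 hl1, hA]
    apply le_of_eq
    ring
  obtain ⟨m, p, ξ, -, hm1, -, hmk, hmem, hav, hflow⟩ := nested_lim {n} (fun _ => ℓ)
    (fun _ => hℓp)
    (by
      intro n' hn'
      rw [Finset.mem_singleton] at hn'
      subst hn'
      exact ⟨hn, fun _ => hℓ'⟩)
    (fun _ => 0) (fun _ => 1 + A) (fun _ => by linarith)
    (fun _ => (A - n) / (A + 1)) (fun _ => νd) (fun _ => hνp0) (fun _ => hνd0)
    (fun _ => 0) (fun _ => le_rfl) (fun _ _ _ => le_rfl) tendsto_const_nhds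
    (by
      intro n' hn' k
      rw [Finset.mem_singleton] at hn'
      subst hn'
      rw [add_zero, add_zero]
      exact hRA)
    av (fun _ _ => 0) 0
  have hD : ∀ ε : ℝ, 0 < ε → ∃ T : ℕ, ∀ t : ℕ, T ≤ t → OkD n ξ t (Real.exp (-((νd + ε) * t))) := by
    intro ε hε
    obtain ⟨T, hT⟩ := hflow n (Finset.mem_singleton_self n) ε hε
    exact ⟨T, fun t ht => (hT t ht).2⟩
  have happA : ∀ M : ℕ, ∃ m : ℕ, M ≤ m ∧ 1 ≤ m ∧ rad ℓ (1 + A) m ≤ 1 ∧ ∃ p : ℤ,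
      |ξ - p / (ℓ : ℝ) ^ m| ≤ 2 * rad ℓ (1 + A) m := by
    intro M
    have h1 := hmem M
    refine ⟨m M, hmk M, hm1 _, rad_le_one _ (by linarith) _ (hm1 _), p M, ?_⟩
    have hr := rad_pos ℓ (1 + A) (m M)
    beta_reduce at h1
    rw [abs_le]
    constructor <;> linarith [h1.1, h1.2]
  exact ⟨ξ, hav, clause4 hn ξ l A hA happA, clause5 hn ξ νd l hl hνd hD⟩

/-- Dirichlet's theorem on simultaneous approximation -/
theorem dirichlet_simul (N q : ℕ) (hq : 1 ≤ q) (α : ℕ → ℝ) :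
    ∃ j : ℕ, 1 ≤ j ∧ j ≤ q ^ N ∧ ∀ i, i < N → ∃ k : ℤ, |(j : ℝ) * α i - k| ≤ 1 / q := by
  have hqR : (0:ℝ) < q := by exact_mod_cast hq
  let F : Fin (q ^ N + 1) → (Fin N → Fin q) := fun k i =>
    ⟨⌊Int.fract ((k : ℕ) * α i) * q⌋₊, by
      rw [Nat.floor_lt (mul_nonneg (Int.fract_nonneg _) hqR.le)]
      have := Int.fract_lt_one ((k : ℕ) * α i)
      nlinarith⟩
  have hcard : Fintype.card (Fin N → Fin q) < Fintype.card (Fin (q ^ N + 1)) := by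
    simp
  obtain ⟨k, k', hne, hF⟩ := Fintype.exists_ne_map_eq_of_card_lt F hcard
  wlog hlt : (k : ℕ) < (k' : ℕ) generalizing k k'
  · refine this k' k hne.symm hF.symm ?_
    have h1 : (k : ℕ) ≠ (k' : ℕ) := fun h => hne (Fin.ext h)
    omega
  refine ⟨(k' : ℕ) - (k : ℕ), by omega, by have := k'.2; omega, ?_⟩
  intro i hi
  have h1 : F k ⟨i, hi⟩ = F k' ⟨i, hi⟩ := by rw [hF]
  have h2 : ⌊Int.fract (((k : ℕ) : ℝ) * α i) * q⌋₊ = ⌊Int.fract (((k' : ℕ) : ℝ) * α i) * q⌋₊ :=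
    congrArg Fin.val h1
  set a := Int.fract (((k : ℕ) : ℝ) * α i) with ha
  set b := Int.fract (((k' : ℕ) : ℝ) * α i) with hb
  have ha0 : 0 ≤ a * q := mul_nonneg (Int.fract_nonneg _) hqR.le
  have hb0 : 0 ≤ b * q := mul_nonneg (Int.fract_nonneg _) hqR.le
  have e1 := Nat.floor_le ha0
  have e2 := Nat.lt_floor_add_one (a * q)
  have e3 := Nat.floor_le hb0
  have e4 := Nat.lt_floor_add_one (b * q)
  rw [h2] at e1 e2
  have hab : |(b - a) * q| < 1 := by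
    rw [abs_lt]; constructor <;> nlinarith
  have hab' : |b - a| ≤ 1 / q := by
    rw [abs_mul, abs_of_pos hqR] at hab
    rw [le_div_iff₀ hqR]
    exact hab.le
  refine ⟨⌊((k' : ℕ) : ℝ) * α i⌋ - ⌊((k : ℕ) : ℝ) * α i⌋, ?_⟩
  have e5 : b = ((k' : ℕ) : ℝ) * α i - ⌊((k' : ℕ) : ℝ) * α i⌋ := rfl
  have e6 : a = ((k : ℕ) : ℝ) * α i - ⌊((k : ℕ) : ℝ) * α i⌋ := rfl
  have e7 : (((k' : ℕ) - (k : ℕ) : ℕ) : ℝ) = ((k' : ℕ) : ℝ) - ((k : ℕ) : ℝ) := by
    rw [Nat.cast_sub hlt.le]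
  have : (((k' : ℕ) - (k : ℕ) : ℕ) : ℝ) * α i -
      ((⌊((k' : ℕ) : ℝ) * α i⌋ - ⌊((k : ℕ) : ℝ) * α i⌋ : ℤ) : ℝ) = b - a := by
    rw [e7, e5, e6]; push_cast; ring
  rw [this]; exact hab'

/-- Dirichlet: the exponent is at least `1 / n`. -/
theorem lam_lower {n : ℕ} (hn : 1 ≤ n) (ξ : ℝ) (hξ : Irrational ξ) (m : ℝ) (hm : m < 1 / (n : ℝ)) :
    (QSet n ξ m).Infinite := by
  have hn0 : (0 : ℝ) < n := by exact_mod_cast hn
  intro hfin
  obtain ⟨c, hc, hcP⟩ : ∃ c : ℝ, 0 < c ∧ ∀ q ∈ QSet n ξ m, c ≤ |(q : ℝ) * ξ - round ((q : ℝ) * ξ)| := by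
    rcases hfin.toFinset.eq_empty_or_nonempty with h0 | h0
    · refine ⟨1, one_pos, fun q hq => ?_⟩
      have : q ∈ hfin.toFinset := hfin.mem_toFinset.2 hq
      rw [h0] at this; simp at this
    · obtain ⟨q0, h1, h2⟩ := hfin.toFinset.exists_min_image
        (fun q => |(q : ℝ) * ξ - round ((q : ℝ) * ξ)|) h0
      refine ⟨|(q0 : ℝ) * ξ - round ((q0 : ℝ) * ξ)|, ?_, fun q hq => h2 q (hfin.mem_toFinset.2 hq)⟩
      rw [abs_pos, sub_ne_zero]
      have hq0 : 0 < q0 := (hfin.mem_toFinset.1 h1).1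
      exact (hξ.natCast_mul hq0.ne').ne_int _
  obtain ⟨Q, hQ⟩ := exists_nat_gt (1 / c)
  have hc1 : 0 < 1 / c := by positivity
  have hQR : (0 : ℝ) < Q := hc1.trans hQ
  have hQ1 : 1 ≤ Q := by exact_mod_cast (by exact_mod_cast hQR : 0 < Q)
  have hQ1R : (1 : ℝ) ≤ Q := by exact_mod_cast hQ1
  obtain ⟨j, hj1, hj2, hj⟩ := dirichlet_simul n Q hQ1 (fun i => ξ ^ (i + 1))
  have hjR : (0 : ℝ) < j := by exact_mod_cast hj1
  have hjR1 : (1 : ℝ) ≤ j := by exact_mod_cast hj1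
  have hjn : 1 / (Q : ℝ) ≤ (j : ℝ) ^ (-m) := by
    have h1 : (j : ℝ) ^ (1 / (n : ℝ)) ≤ Q := by
      have h2 : (j : ℝ) ≤ (Q : ℝ) ^ (n : ℝ) := by
        rw [Real.rpow_natCast]
        exact_mod_cast hj2
      calc (j : ℝ) ^ (1 / (n : ℝ)) ≤ ((Q : ℝ) ^ (n : ℝ)) ^ (1 / (n : ℝ)) :=
            Real.rpow_le_rpow hjR.le h2 (by positivity)
        _ = Q := by
            rw [← Real.rpow_mul hQR.le, mul_one_div_cancel hn0.ne', Real.rpow_one]
    have h3 : (j : ℝ) ^ (-(1 / (n : ℝ))) ≤ (j : ℝ) ^ (-m) :=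
      Real.rpow_le_rpow_of_exponent_le hjR1 (by linarith)
    refine le_trans ?_ h3
    rw [Real.rpow_neg hjR.le, one_div]
    exact inv_anti₀ (Real.rpow_pos_of_pos hjR _) h1
  choose! k hk using hj
  have hmem : j ∈ QSet n ξ m := by
    refine ⟨by omega, fun i => k (i - 1), ?_⟩
    intro i hi
    rw [Finset.mem_Icc] at hi
    have h1 := hk (i - 1) (by omega)
    rw [show i - 1 + 1 = i by omega] at h1
    exact h1.trans hjn
  have h1 := hcP j hmem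
  have h2 := hk 0 (by omega)
  rw [zero_add, pow_one] at h2
  have h3 := round_le ((j : ℝ) * ξ) (k 0)
  have h4 : c ≤ 1 / Q := h1.trans (h3.trans h2)
  rw [div_lt_iff₀ hc] at hQ
  rw [le_div_iff₀ hQR] at h4
  linarith

/-- a Liouville number has infinite exponent -/
theorem lam_top {n : ℕ} (hn : 1 ≤ n) (m : ℝ) : (QSet n (liouvilleNumber (2 : ℕ)) m).Infinite := by
  have hf : Fact (Nat.Prime 2) := ⟨Nat.prime_two⟩
  have hn0 : (0 : ℝ) < n := by exact_mod_cast hn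
  set l : ℝ := max m 1 + 1 with hl
  have hl1 : 1 ≤ l := by rw [hl]; linarith [le_max_right m 1]
  have hml : m < l := by rw [hl]; linarith [le_max_left m 1]
  refine clause4 (ℓ := 2) hn (liouvilleNumber (2 : ℕ)) l (n * l + n - 1) rfl ?_ m hml
  intro M
  set A : ℝ := n * l + n - 1 with hA
  have hA0 : 1 ≤ A := by
    have hn1 : (1 : ℝ) ≤ n := by exact_mod_cast hn
    rw [hA]
    have : 1 ≤ n * l := by nlinarith
    linarith
  obtain ⟨k1, hk1⟩ := exists_nat_gt (1 + A)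
  obtain ⟨k, hk⟩ : ∃ k : ℕ, k = max M k1 + 1 := ⟨_, rfl⟩
  have hkM : M ≤ k := by rw [hk]; exact (le_max_left _ _).trans (Nat.le_succ _)
  have hkk : k1 ≤ k := by rw [hk]; exact (le_max_right _ _).trans (Nat.le_succ _)
  have hkA : 1 + A ≤ k := hk1.le.trans (by exact_mod_cast hkk)
  obtain ⟨p, hp⟩ := LiouvilleNumber.partialSum_eq_rat (m := 2) (by norm_num) k
  have h2R : (1 : ℝ) < ((2 : ℕ) : ℝ) := by norm_num
  have hsum := LiouvilleNumber.partialSum_add_remainder h2R k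
  have hrem0 := LiouvilleNumber.remainder_pos h2R k
  have hrem := LiouvilleNumber.remainder_lt k (m := ((2 : ℕ) : ℝ)) (by norm_num)
  have hfac : 1 ≤ k.factorial := Nat.factorial_pos k
  refine ⟨k.factorial, hkM.trans k.self_le_factorial, hfac,
    rad_le_one _ (by linarith) _ hfac, ((p : ℕ) : ℤ), ?_⟩
  have hr := rad_pos 2 (1 + A) k.factorial
  have e1 : liouvilleNumber (2 : ℕ) - (((p : ℕ) : ℤ) : ℝ) / (((2 : ℕ) : ℝ)) ^ k.factorial =
      LiouvilleNumber.remainder ((2 : ℕ) : ℝ) k := by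
    have e : (((p : ℕ) : ℤ) : ℝ) / (((2 : ℕ) : ℝ)) ^ k.factorial =
        LiouvilleNumber.partialSum ((2 : ℕ) : ℝ) k := by
      rw [hp]; push_cast; rfl
    rw [e, ← hsum]; ring
  rw [e1, abs_of_pos hrem0]
  have h2 : 1 / (((2 : ℕ) : ℝ) ^ k.factorial) ^ k ≤ rad 2 (1 + A) k.factorial := by
    rw [rad_rpow]
    have e2 : 1 / (((2 : ℕ) : ℝ) ^ k.factorial) ^ k = ((((2 : ℕ) ^ k.factorial : ℕ)) : ℝ) ^ (-(k : ℝ)) := by
      rw [Real.rpow_neg (by positivity), Real.rpow_natCast, one_div]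
      push_cast
      rfl
    rw [e2]
    apply Real.rpow_le_rpow_of_exponent_le _ (by linarith)
    have : 1 ≤ (2 : ℕ) ^ k.factorial := Nat.one_le_two_pow
    exact_mod_cast this
  have h3 := hrem.le.trans h2
  have h4 : rad 2 (1 + A) k.factorial ≤ 2 * rad 2 (1 + A) k.factorial := by linarith
  exact h3.trans h4

end Pool.Agent.TH970.SE
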