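import Pool.Agent.TH970.SE.Two

/-! Tools for exact degree exponents. -/

set_option autoImplicit false

open Polynomial Set

namespace Pool.Agent.TH970.SE

open Pool.Agent.W71

theorem irr_of_min {P : ℤ[X]} {α : ℝ} (h : MinPolyZ P α) : Irreducible P := by
  obtain ⟨hprim, hlead, hdeg, hroot, hmin⟩ := h
  have hP0 : P ≠ 0 := by rintro rfl; simp at hlead
  have key : ∀ A B : ℤ[X], P = A * B → aeval α A = 0 → IsUnit B := by
    intro A B hAB hA
    have hA0 : A ≠ 0 := by rintro rfl; rw [zero_mul] at hAB; exact hP0 hAB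
    have hB0 : B ≠ 0 := by rintro rfl; rw [mul_zero] at hAB; exact hP0 hAB
    have h1 := hmin A hA0 hA
    have h2 : P.natDegree = A.natDegree + B.natDegree := by rw [hAB, natDegree_mul hA0 hB0]
    have h3 : B.natDegree = 0 := by omega
    rw [natDegree_eq_zero] at h3
    obtain ⟨b, rfl⟩ := h3
    exact (hprim b ⟨A, by rw [hAB, mul_comm]⟩).map C
  constructor
  · intro hu
    have := natDegree_eq_zero_of_isUnit hu
    omega
  · intro A B hAB
    have h1 : aeval α A * aeval α B = 0 := by rw [← map_mul, ← hAB, hroot]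
    rcases mul_eq_zero.1 h1 with h | h
    · exact Or.inr (key A B hAB h)
    · exact Or.inl (key B A (by rw [hAB, mul_comm]) h)

/-- an infinite set of roots gives polynomials of large height -/
theorem exists_big {n : ℕ} (S : Set ℝ) (R : ℤ[X] → ℝ → Prop) (hS : S.Infinite)
    (h : ∀ α ∈ S, ∃ P : ℤ[X], P ≠ 0 ∧ P.natDegree ≤ n ∧ aeval α P = 0 ∧ R P α) (N : ℝ) :
    ∃ (α : ℝ) (P : ℤ[X]), P ≠ 0 ∧ P.natDegree ≤ n ∧ aeval α P = 0 ∧ R P α ∧ N < hgt P := by
  by_contra hc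
  push Not at hc
  apply hS
  apply Set.Finite.subset ((finite_hgt n N).biUnion (fun P _ => P.rootSet_finite ℝ))
  intro α hα
  obtain ⟨P, h1, h2, h3, h4⟩ := h α hα
  rw [mem_iUnion₂]
  refine ⟨P, ⟨h2, hc α P h1 h2 h3 h4⟩, ?_⟩
  rw [mem_rootSet]
  exact ⟨h1, h3⟩

/-- good algebraic approximations of exact degree give good polynomials of exact degree -/
theorem lower {n : ℕ} (ξ w r : ℝ) (hw : 0 ≤ w) (hrw : r < w)
    (hinf : {α : ℝ | ∃ P : ℤ[X], MinPolyZ P α ∧ P.natDegree = n ∧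
      |ξ - α| < (hgt P : ℝ) ^ (-(1 + w))}.Infinite) (X₀ : ℝ) :
    ∃ X : ℝ, X₀ ≤ X ∧ 1 ≤ X ∧ ∃ P : ℤ[X], P.natDegree = n ∧ Irreducible P ∧
      (hgt P : ℝ) ≤ X ∧ |aeval ξ P| ≤ X ^ (-r) := by
  set C : ℝ := (n + 1) * cX n ξ with hC
  have hC1 : 1 ≤ C := by
    have h1 := one_le_cX n ξ
    have h2 : (0 : ℝ) ≤ n := Nat.cast_nonneg n
    rw [hC]; nlinarith
  have hvv : 0 < w - r := by linarith
  set N : ℝ := max X₀ (max 1 (C ^ (1 / (w - r)))) with hN
  obtain ⟨α, P, h1, h2, h3, ⟨h4, h5, h6⟩, h7⟩ := exists_big (n := n) _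
    (fun P α => MinPolyZ P α ∧ P.natDegree = n ∧ |ξ - α| < (hgt P : ℝ) ^ (-(1 + w))) hinf
    (by
      rintro α ⟨P, h1, h2, h3⟩
      refine ⟨P, ?_, h2.le, h1.2.2.2.1, h1, h2, h3⟩
      rintro rfl
      have := h1.2.1
      simp at this) N
  have hH1 : (1 : ℝ) ≤ hgt P := by exact_mod_cast hgt_pos h1
  have hH0 : (0 : ℝ) < hgt P := by linarith
  refine ⟨hgt P, (le_max_left _ _).trans h7.le, hH1, P, h5, irr_of_min h4, le_rfl, ?_⟩
  have hd1 : |ξ - α| ≤ 1 := by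
    refine h6.le.trans ?_
    apply Real.rpow_le_one_of_one_le_of_nonpos hH1
    linarith
  have h8 := value_le h2 ξ α h3 hd1
  rw [← hgt_eq_Ht h2] at h8
  have h9 : C ≤ (hgt P : ℝ) ^ (w - r) := by
    calc C = (C ^ (1 / (w - r))) ^ (w - r) := by
          rw [← Real.rpow_mul (by linarith), one_div_mul_cancel hvv.ne', Real.rpow_one]
      _ ≤ _ := Real.rpow_le_rpow (by positivity)
        (((le_max_right _ _).trans (le_max_right _ _)).trans h7.le) hvv.le
  calc |aeval ξ P| ≤ C * (hgt P : ℝ) * |ξ - α| := h8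
    _ ≤ (hgt P : ℝ) ^ (w - r) * (hgt P : ℝ) * (hgt P : ℝ) ^ (-(1 + w)) := by
        apply mul_le_mul _ h6.le (abs_nonneg _) (by positivity)
        exact mul_le_mul_of_nonneg_right h9 hH0.le
    _ = (hgt P : ℝ) ^ (-r) := by
        nth_rw 2 [← Real.rpow_one (hgt P : ℝ)]
        rw [← Real.rpow_add hH0, ← Real.rpow_add hH0]
        congr 1; ring

/-- the upper bound -/
theorem upper {n : ℕ} (ξ r : ℝ) (hr : 0 < r) (hξ : ∀ P : ℤ[X], P ≠ 0 → aeval ξ P ≠ 0)
    (hfin : {P : ℤ[X] | P ≠ 0 ∧ P.natDegree ≤ n ∧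
      |aeval ξ P| ≤ ((Ht n P : ℕ) : ℝ) ^ (-r)}.Finite) :
    ∃ X₀ : ℝ, ∀ X : ℝ, X₀ ≤ X → 1 ≤ X → ∀ P : ℤ[X], P ≠ 0 → P.natDegree ≤ n →
      (hgt P : ℝ) ≤ X → X ^ (-r) < |aeval ξ P| := by
  obtain ⟨c, hc, hcP⟩ : ∃ c : ℝ, 0 < c ∧ ∀ P ∈ {P : ℤ[X] | P ≠ 0 ∧ P.natDegree ≤ n ∧
      |aeval ξ P| ≤ ((Ht n P : ℕ) : ℝ) ^ (-r)}, c ≤ |aeval ξ P| := by
    rcases hfin.toFinset.eq_empty_or_nonempty with h0 | h0
    · refine ⟨1, one_pos, fun P hP => ?_⟩
      have : P ∈ hfin.toFinset := hfin.mem_toFinset.2 hP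
      rw [h0] at this; simp at this
    · obtain ⟨P0, h1, h2⟩ := hfin.toFinset.exists_min_image (fun P => |aeval ξ P|) h0
      refine ⟨|aeval ξ P0|, abs_pos.2 (hξ _ (hfin.mem_toFinset.1 h1).1), fun P hP => h2 P ?_⟩
      exact hfin.mem_toFinset.2 hP
  have hlim : Filter.Tendsto (fun X : ℝ => X ^ (-r)) Filter.atTop (nhds 0) :=
    tendsto_rpow_neg_atTop hr
  obtain ⟨X₀, hX₀⟩ := Filter.eventually_atTop.mp (hlim.eventually_lt_const hc)
  refine ⟨X₀, fun X hX hX1 P hP hPn hPX => ?_⟩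
  by_contra hcon
  push Not at hcon
  have hH1 : (1 : ℝ) ≤ hgt P := by exact_mod_cast hgt_pos hP
  have h1 : |aeval ξ P| ≤ ((Ht n P : ℕ) : ℝ) ^ (-r) := by
    rw [← hgt_eq_Ht hPn]
    exact hcon.trans (Real.rpow_le_rpow_of_nonpos (by linarith) hPX (by linarith))
  have h2 := hcP P ⟨hP, hPn, h1⟩
  have h3 := hX₀ X hX
  linarith

/-- a number with very good approximations of exact degree `n` -/
theorem top {n : ℕ} (hn : 1 ≤ n) : ∃ ξ : ℝ, Transcendental ℤ ξ ∧ ∀ w : ℝ, 0 ≤ w →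
    {α : ℝ | ∃ P : ℤ[X], MinPolyZ P α ∧ P.natDegree = n ∧
      |ξ - α| < (hgt P : ℝ) ^ (-(1 + w))}.Infinite := by
  have hL := transcendental_liouvilleNumber (m := 2) le_rfl
  have hrt : IsAlgebraic ℤ (rt n) := by
    refine ⟨X ^ n - C 2, X_pow_sub_C_ne_zero (by omega) 2, ?_⟩
    rw [map_sub, map_pow, aeval_X, aeval_C, rt_pow hn]
    norm_num
  refine ⟨liouvilleNumber (2 : ℕ) + rt n, ?_, ?_⟩
  · intro h
    apply hL
    have := h.sub hrt
    simpa using this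
  · intro w hw
    apply inf_of_close _ (liouvilleNumber (2 : ℕ) + rt n)
    intro ε hε
    have h2R : (1 : ℝ) < ((2 : ℕ) : ℝ) := by norm_num
    set B : ℝ := |liouvilleNumber (2 : ℕ)| + 1 with hB
    have hB1 : 1 ≤ B := by have := abs_nonneg (liouvilleNumber (2 : ℕ)); linarith
    set K : ℝ := 2 ^ n * B ^ n + 2 with hK
    have hK0 : 1 ≤ K := by have : 0 ≤ (2 : ℝ) ^ n * B ^ n := by positivity
                           linarith
    obtain ⟨k1, hk1⟩ := exists_nat_gt (max (K ^ (1 + w) + 1 / ε) ((n : ℝ) * (1 + w) + 1))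
    obtain ⟨k, hk⟩ : ∃ k : ℕ, k = k1 + 1 := ⟨_, rfl⟩
    have hk1' : (k1 : ℝ) ≤ k := by rw [hk]; push_cast; linarith
    have hk0 : 1 ≤ k := by omega
    obtain ⟨p, hp⟩ := LiouvilleNumber.partialSum_eq_rat (m := 2) (by norm_num) k
    have hsum := LiouvilleNumber.partialSum_add_remainder h2R k
    have hrem0 := LiouvilleNumber.remainder_pos h2R k
    have hrem := LiouvilleNumber.remainder_lt k (m := ((2 : ℕ) : ℝ)) (by norm_num)
    obtain ⟨q, hq⟩ : ∃ q : ℕ, q = 2 ^ k.factorial := ⟨_, rfl⟩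
    have hq1 : 1 ≤ q := by rw [hq]; exact Nat.one_le_two_pow
    have hqk : (k : ℝ) + 1 ≤ q := by
      have h1 : k < 2 ^ k := Nat.lt_two_pow_self
      have h2 : 2 ^ k ≤ 2 ^ k.factorial := Nat.pow_le_pow_right (by norm_num) k.self_le_factorial
      have : k + 1 ≤ q := by rw [hq]; omega
      exact_mod_cast this
    have hqR : (0 : ℝ) < q := by exact_mod_cast hq1
    have hqR1 : (1 : ℝ) ≤ q := by exact_mod_cast hq1
    have hdiff : (liouvilleNumber (2 : ℕ) + rt n) - ((((p : ℕ) : ℤ) : ℝ) / q + rt n) =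
        LiouvilleNumber.remainder ((2 : ℕ) : ℝ) k := by
      have e : (((p : ℕ) : ℤ) : ℝ) / q = LiouvilleNumber.partialSum ((2 : ℕ) : ℝ) k := by
        rw [hp, hq]; push_cast; rfl
      rw [e, ← hsum]
      ring
    have hrem' : LiouvilleNumber.remainder ((2 : ℕ) : ℝ) k < (q : ℝ) ^ (-(k : ℝ)) := by
      have e : (q : ℝ) ^ (-(k : ℝ)) = 1 / (((2 : ℕ) : ℝ) ^ k.factorial) ^ k := by
        rw [Real.rpow_neg hqR.le, Real.rpow_natCast, hq]
        push_cast
        rw [one_div]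
      rw [e]
      exact hrem
    have hkw : (n : ℝ) * (1 + w) + 1 < k := lt_of_le_of_lt (le_max_right _ _) (hk1.trans_le hk1')
    have hkK : K ^ (1 + w) + 1 / ε < k := lt_of_le_of_lt (le_max_left _ _) (hk1.trans_le hk1')
    have hKw : 0 < K ^ (1 + w) := Real.rpow_pos_of_pos (by linarith) _
    have hinv : (q : ℝ) ^ (-(k : ℝ)) ≤ 1 / q := by
      have : (q : ℝ) ^ (-(k : ℝ)) ≤ (q : ℝ) ^ (-(1 : ℝ)) := by
        apply Real.rpow_le_rpow_of_exponent_le hqR1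
        have : (1 : ℝ) ≤ k := by exact_mod_cast hk0
        linarith
      rw [Real.rpow_neg_one] at this
      rw [one_div]
      exact this
    have hq_inv1 : 1 / (q : ℝ) ≤ 1 := by rw [div_le_one hqR]; exact hqR1
    have hpB : |((((p : ℕ) : ℤ) : ℝ)) / q| ≤ B := by
      have e : (((p : ℕ) : ℤ) : ℝ) / q = liouvilleNumber (2 : ℕ) -
          LiouvilleNumber.remainder ((2 : ℕ) : ℝ) k := by linarith [hdiff]
      rw [e]
      refine (abs_sub _ _).trans ?_
      rw [hB, abs_of_pos hrem0]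
      linarith
    obtain ⟨P, hP1, hP2, hP3⟩ := minPoly_translate hn B hB1 q hq1 ((p : ℕ) : ℤ) hpB
    have hP0 : P ≠ 0 := by rintro rfl; have := hP1.2.1; simp at this
    have hH1 : (1 : ℝ) ≤ hgt P := by exact_mod_cast hgt_pos hP0
    refine ⟨(((p : ℕ) : ℤ) : ℝ) / q + rt n, ⟨P, hP1, hP2, ?_⟩, ?_, ?_⟩
    · rw [hdiff, abs_of_pos hrem0]
      calc LiouvilleNumber.remainder ((2 : ℕ) : ℝ) k < (q : ℝ) ^ (-(k : ℝ)) := hrem'
        _ ≤ (K * (q : ℝ) ^ n) ^ (-(1 + w)) := by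
            rw [Real.mul_rpow (by linarith) (by positivity), ← Real.rpow_natCast,
              ← Real.rpow_mul hqR.le]
            have e1 : (q : ℝ) ^ (-(k : ℝ)) ≤ (q : ℝ) ^ (-(1 : ℝ)) * (q : ℝ) ^ ((n : ℝ) * -(1 + w)) := by
              rw [← Real.rpow_add hqR]
              apply Real.rpow_le_rpow_of_exponent_le hqR1
              linarith
            refine e1.trans (mul_le_mul_of_nonneg_right ?_ (Real.rpow_nonneg hqR.le _))
            rw [Real.rpow_neg_one, Real.rpow_neg (by linarith)]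
            apply inv_anti₀ hKw
            have : 0 < 1 / ε := by positivity
            linarith
        _ ≤ (hgt P : ℝ) ^ (-(1 + w)) :=
            Real.rpow_le_rpow_of_nonpos (by linarith) hP3 (by linarith)
    · rw [hdiff, abs_of_pos hrem0]
      exact hrem0
    · rw [hdiff, abs_of_pos hrem0]
      refine hrem'.trans_le (hinv.trans ?_)
      rw [div_le_iff₀ hqR]
      have h1 : 1 / ε < q := by linarith
      rw [div_lt_iff₀ hε] at h1
      linarith

end Pool.Agent.TH970.SE
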