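import Pool.Agent.W71.TwoDeg

/-! Transcendental real numbers with prescribed exact degree exponents. -/

set_option autoImplicit false

open Polynomial Set MeasureTheory

namespace Pool.Agent.TH970.SE

open Pool.Agent.W71
open Pool.Agent.Helper404 (toP castQ toP_natDegree)

theorem two_deg_exact (D1 D2 : ℕ) (h1 : 1 ≤ D1) (h12 : D1 < D2) (w1 w2 : ℝ) (hw1 : (D1 : ℝ) ≤ w1)
    (hw2 : (D2 : ℝ) ≤ w2) (hw12 : w1 ≤ w2) (av : ℕ → ℝ) : ∃ ξ : ℝ, (∀ k, ξ ≠ av k) ∧
    (∀ v : ℝ, w1 < v →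
      {P : ℤ[X] | P ≠ 0 ∧ P.natDegree ≤ D1 ∧ |aeval ξ P| ≤ ((Ht D1 P : ℕ) : ℝ) ^ (-v)}.Finite) ∧
    (∀ v : ℝ, w2 < v →
      {P : ℤ[X] | P ≠ 0 ∧ P.natDegree ≤ D2 ∧ |aeval ξ P| ≤ ((Ht D2 P : ℕ) : ℝ) ^ (-v)}.Finite) ∧
    {α : ℝ | ∃ P : ℤ[X], MinPolyZ P α ∧ P.natDegree = 1 ∧
      |ξ - α| < (hgt P : ℝ) ^ (-(1 + w1))}.Infinite ∧
    {α : ℝ | ∃ P : ℤ[X], MinPolyZ P α ∧ P.natDegree = D1 + 1 ∧
      |ξ - α| < (hgt P : ℝ) ^ (-(1 + w2))}.Infinite := by
  classical
  obtain ⟨ℓ, hℓbig, hℓ⟩ := Nat.exists_infinite_primes ((D2 + 1) * D2 + 1)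
  have : Fact ℓ.Prime := ⟨hℓ⟩
  have hD1 : (1 : ℝ) ≤ D1 := by exact_mod_cast h1
  have hD12 : (D1 : ℝ) + 1 ≤ D2 := by exact_mod_cast h12
  set Wn : ℕ → ℝ := fun n => if n = D1 then w1 else w2 with hWn
  set νp : ℕ → ℝ := fun n => max 0 (1 - ((n : ℝ) + 1) / (1 + Wn n)) with hνp
  set dk : ℕ → ℝ := fun k => 1 / ((k : ℝ) + 1) with hdk
  have hdk0 : ∀ k, 0 < dk k := fun k => by simp only [hdk]; positivity
  set dl : ℕ → ℝ := fun k => ((D2 : ℝ) + 1) * dk k with hdl
  set be : ℕ → ℝ := fun k => if Even k then rt 1 else rt (D1 + 1) with hbe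
  set ee : ℕ → ℝ := fun k => if Even k then ((1 : ℕ) : ℝ) * (1 + w1) + dk k
    else ((D1 + 1 : ℕ) : ℝ) * (1 + w2) + dk k with hee
  have hνp0 : ∀ n, 0 ≤ νp n := fun n => le_max_left _ _
  have hWS : ∀ n ∈ ({D1, D2} : Finset ℕ), (n : ℝ) ≤ Wn n ∧ w1 ≤ Wn n ∧ Wn n ≤ w2 := by
    intro n hn
    rw [Finset.mem_insert, Finset.mem_singleton] at hn
    rcases hn with rfl | rfl
    · simp only [hWn, if_true]
      exact ⟨hw1, le_rfl, hw12⟩
    · have : ¬ n = D1 := by omega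
      simp only [hWn, if_neg this]
      exact ⟨hw2, hw12, le_rfl⟩
  have hdk1 : ∀ k, dk k ≤ 1 := by
    intro k
    simp only [hdk]
    rw [div_le_one (by positivity)]
    linarith [(Nat.cast_nonneg k : (0 : ℝ) ≤ k)]
  obtain ⟨m, p, ξ, -, hm1, hmM, hmk, hmem, hav, hflow⟩ := nested_lim {D1, D2} (fun _ => ℓ)
    (fun _ => hℓ)
    (by
      intro n hn
      rw [Finset.mem_insert, Finset.mem_singleton] at hn
      rcases hn with rfl | rfl
      · refine ⟨h1, fun _ => ?_⟩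
        have : (n + 1) * n ≤ (D2 + 1) * D2 := Nat.mul_le_mul (by omega) (by omega)
        omega
      · exact ⟨by omega, fun _ => by omega⟩)
    be ee
    (by
      intro k
      simp only [hee]
      have h3 := (hdk0 k).le
      split_ifs
      · push_cast; linarith
      · push_cast
        nlinarith)
    νp (fun n => n * νp n) hνp0 (fun n => mul_nonneg (Nat.cast_nonneg _) (hνp0 n)) dl
    (fun k => mul_nonneg (by positivity) (hdk0 k).le)
    (by
      intro i j hij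
      simp only [hdl, hdk]
      apply mul_le_mul_of_nonneg_left _ (by positivity)
      apply one_div_le_one_div_of_le (by positivity)
      have : (i : ℝ) ≤ j := by exact_mod_cast hij
      linarith)
    (by
      have := (tendsto_one_div_add_atTop_nhds_zero_nat (𝕜 := ℝ)).const_mul ((D2 : ℝ) + 1)
      rw [mul_zero] at this
      exact this)
    (by
      intro n hn k
      obtain ⟨hW1, hW2, hW3⟩ := hWS n hn
      have hdkk := hdk0 k
      have hn' : n = D1 ∨ n = D2 := by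
        rw [Finset.mem_insert, Finset.mem_singleton] at hn; exact hn
      have hn1 : 1 ≤ n := by rcases hn' with rfl | rfl <;> omega
      have hnD : n ≤ D2 := by rcases hn' with rfl | rfl <;> omega
      have hnDR : (n : ℝ) ≤ D2 := by exact_mod_cast hnD
      have hℓn : (n + 1) * n < ℓ := by
        have : (n + 1) * n ≤ (D2 + 1) * D2 := Nat.mul_le_mul (by omega) (by omega)
        omega
      have hn0 : (0 : ℝ) ≤ n := Nat.cast_nonneg n
      have hν1 : 1 - ((n : ℝ) + 1) / (1 + Wn n + dk k) ≤ νp n + dk k := by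
        have e1 : ((n : ℝ) + 1) / (1 + Wn n) - ((n : ℝ) + 1) / (1 + Wn n + dk k) ≤ dk k := by
          rw [div_sub_div _ _ (by linarith) (by linarith), div_le_iff₀ (by nlinarith)]
          have e3 : ((n : ℝ) + 1) * (1 + Wn n + dk k) - (1 + Wn n) * ((n : ℝ) + 1) =
              dk k * ((n : ℝ) + 1) := by ring
          rw [e3]
          apply mul_le_mul_of_nonneg_left _ hdkk.le
          nlinarith
        have e2 : 1 - ((n : ℝ) + 1) / (1 + Wn n) ≤ νp n := le_max_right _ _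
        linarith
      have hc1 : 1 - ((n : ℝ) + 1) / (1 + Wn n + dk k) ≤ νp n + dl k := by
        have : dk k ≤ dl k := by simp only [hdl]; nlinarith
        linarith
      have hc2 : n * (1 - ((n : ℝ) + 1) / (1 + Wn n + dk k)) ≤ n * νp n + dl k := by
        calc n * (1 - ((n : ℝ) + 1) / (1 + Wn n + dk k)) ≤ n * (νp n + dk k) :=
              mul_le_mul_of_nonneg_left hν1 hn0
          _ ≤ n * νp n + dl k := by simp only [hdl]; nlinarith
      by_cases hk : Even k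
      · simp only [hbe, hee, if_pos hk]
        apply richG (N := 0) hn1 (by omega) hℓn (betaData (n := 1) le_rfl) (1 + Wn n + dk k) _ _ _
          (by linarith) (by push_cast; linarith) (Or.inl (by push_cast; linarith)) hc1 hc2
      · simp only [hbe, hee, if_neg hk]
        apply richG (N := D1) hn1 (by rcases hn' with rfl | rfl <;> omega) hℓn
          (betaData (n := D1 + 1) (by omega)) (1 + Wn n + dk k) _ _ _
          (by linarith) (by push_cast; nlinarith) _ hc1 hc2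
        rcases hn' with rfl | rfl
        · exact Or.inr rfl
        · left
          have : ¬ n = D1 := by omega
          simp only [hWn, if_neg this]
          push_cast
          nlinarith)
    av (fun k _ => (k + 2) * (k + 2)) 0
  -- upper bounds
  have hup : ∀ n ∈ ({D1, D2} : Finset ℕ), ∀ v : ℝ, Wn n < v →
      {P : ℤ[X] | P ≠ 0 ∧ P.natDegree ≤ n ∧ |aeval ξ P| ≤ ((Ht n P : ℕ) : ℝ) ^ (-v)}.Finite := by
    intro n hn v hv
    obtain ⟨hW1, hW2, hW3⟩ := hWS n hn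
    have hn0 : (0 : ℝ) ≤ n := Nat.cast_nonneg n
    apply clause3 ξ (νp n) (Wn n) hW1 _ _ v hv
    · have e1 : 1 - ((n : ℝ) + 1) / (1 + Wn n) = (Wn n - n) / (Wn n + 1) := by
        have : 1 + Wn n ≠ 0 := by linarith
        have : Wn n + 1 ≠ 0 := by linarith
        field_simp
        ring
      simp only [hνp]
      rw [e1, max_eq_right (div_nonneg (by linarith) (by linarith))]
    · intro ε hε
      obtain ⟨T, hT⟩ := hflow n hn ε hε
      exact ⟨T, fun t ht => (hT t ht).1⟩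
  -- lower bounds
  have hlow : ∀ (d : ℕ) (w : ℝ) (K : ℕ → Prop), 1 ≤ d → 0 ≤ w →
      (∀ k, K k → be k = rt d ∧ ee k = (d : ℝ) * (1 + w) + dk k) →
      (∀ k0, ∃ k, k0 ≤ k ∧ K k) →
      {α : ℝ | ∃ P : ℤ[X], MinPolyZ P α ∧ P.natDegree = d ∧
      |ξ - α| < (hgt P : ℝ) ^ (-(1 + w))}.Infinite := by
    intro d w K hd hw hK hKinf
    apply inf_of_close _ ξ
    intro ε hε
    set B : ℝ := |ξ| + 4 with hB
    have hB1 : 1 ≤ B := by have := abs_nonneg ξ; linarith
    set C : ℝ := 2 * (2 ^ d * B ^ d + 2) ^ (1 + w) with hC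
    obtain ⟨k1, hk1⟩ := exists_nat_gt (max C (1 / ε))
    obtain ⟨k, hkk, hKk⟩ := hKinf (k1 + 1)
    obtain ⟨hbk, hek⟩ := hK k hKk
    have hek2 : 2 ≤ ee k := by
      simp only [hee]
      have h3 := (hdk0 k).le
      split_ifs
      · push_cast; linarith
      · push_cast
        nlinarith
    have hm := hmem k
    have hrad := rad_pos ℓ (ee k) (m k)
    have hradle := rad_le (ℓ := ℓ) (ee k) hek2 (m k) (hm1 k)
    have hℓ2 : (2 : ℝ) ≤ ℓ := by exact_mod_cast hℓ.two_le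
    have hqpos : (0 : ℝ) < (ℓ : ℝ) ^ m k := by positivity
    have hq2 : (2 : ℝ) ^ k ≤ (ℓ : ℝ) ^ m k :=
      (pow_le_pow_left₀ (by norm_num) hℓ2 _).trans (pow_le_pow_right₀ (by linarith) (hmk k))
    have hkpow : (k : ℝ) + 1 ≤ (2 : ℝ) ^ k := by
      have := (Nat.lt_pow_self (n := k) (by norm_num : 1 < 2))
      exact_mod_cast this
    have hk1R : (k1 : ℝ) + 1 ≤ k := by exact_mod_cast hkk
    have hq1 : (1 : ℝ) ≤ (ℓ : ℝ) ^ m k := by
      have : (0 : ℝ) ≤ k := Nat.cast_nonneg k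
      linarith
    have hd2 : 2 * rad ℓ (ee k) (m k) ≤ 1 / (ℓ : ℝ) ^ m k := by
      have e1 : 1 / (2 * (ℓ : ℝ) ^ m k) = (1 / (ℓ : ℝ) ^ m k) / 2 := by field_simp
      rw [e1] at hradle
      linarith
    have hinv : 1 / (ℓ : ℝ) ^ m k < ε := by
      rw [div_lt_iff₀ hqpos]
      have h3 : 1 / ε < k1 := lt_of_le_of_lt (le_max_right _ _) hk1
      rw [div_lt_iff₀ hε] at h3
      have h4 : (k1 : ℝ) ≤ (ℓ : ℝ) ^ m k := by linarith
      nlinarith
    have hinv1 : 1 / (ℓ : ℝ) ^ m k ≤ 1 := by rw [div_le_one hqpos]; exact hq1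
    rw [hbk] at hm
    set α : ℝ := (p k : ℝ) / (ℓ : ℝ) ^ (m k) + rt d with hα
    have hdiff : rad ℓ (ee k) (m k) ≤ ξ - α ∧ ξ - α ≤ 2 * rad ℓ (ee k) (m k) := by
      constructor
      · linarith [hm.1]
      · linarith [hm.2]
    have habs : |ξ - α| = ξ - α := abs_of_pos (by linarith [hdiff.1])
    have hpB : |(p k : ℝ) / ((ℓ ^ m k : ℕ) : ℝ)| ≤ B := by
      push_cast
      have e1 : (p k : ℝ) / (ℓ : ℝ) ^ m k = ξ - (ξ - α) - rt d := by rw [hα]; ring
      rw [e1]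
      have h3 := rt_le hd
      have h4 := rt_pos d
      have h5 := abs_le.1 (le_refl |ξ|)
      rw [abs_le]
      constructor
      · rw [hB]; linarith [hdiff.1, hdiff.2]
      · rw [hB]; linarith [hdiff.1, hdiff.2]
    have happ : |ξ - ((p k : ℝ) / ((ℓ ^ m k : ℕ) : ℝ) + rt d)| ≤
        2 * ((ℓ ^ m k : ℕ) : ℝ) ^ (-((d : ℝ) * (1 + w) + dk k)) := by
      rw [← hek, ← rad_rpow]
      push_cast
      change |ξ - α| ≤ _
      rw [habs]; exact hdiff.2
    have hbig : 2 * (2 ^ d * B ^ d + 2) ^ (1 + w) < ((ℓ ^ m k : ℕ) : ℝ) ^ (dk k) := by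
      have hk0 : 1 ≤ k := by omega
      obtain ⟨k', rfl⟩ : ∃ k', k = k' + 1 := ⟨k - 1, by omega⟩
      have h3 : (k' + 2) * (k' + 2) ≤ m (k' + 1) := hmM k'
      have h4 : ((2 : ℝ) ^ (k' + 2)) ≤ ((ℓ ^ m (k' + 1) : ℕ) : ℝ) ^ (dk (k' + 1)) := by
        have h5 : ((2 : ℝ) ^ ((k' + 2) * (k' + 2))) ≤ ((ℓ ^ m (k' + 1) : ℕ) : ℝ) := by
          push_cast
          exact (pow_le_pow_left₀ (by norm_num) hℓ2 _).trans (pow_le_pow_right₀ (by linarith) h3)
        calc ((2 : ℝ) ^ (k' + 2)) = ((2 : ℝ) ^ ((k' + 2) * (k' + 2))) ^ (dk (k' + 1)) := by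
              rw [pow_mul, ← Real.rpow_natCast ((2 : ℝ) ^ (k' + 2)) (k' + 2),
                ← Real.rpow_mul (by positivity)]
              have : ((k' + 2 : ℕ) : ℝ) * dk (k' + 1) = 1 := by
                simp only [hdk]; push_cast
                have : (k' : ℝ) + 1 + 1 ≠ 0 := by positivity
                field_simp
                ring
              rw [this, Real.rpow_one]
          _ ≤ _ := Real.rpow_le_rpow (by positivity) h5 (hdk0 _).le
      have h6 : C < k1 := lt_of_le_of_lt (le_max_left _ _) hk1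
      have h7 : ((k' + 1 : ℕ) : ℝ) + 1 ≤ (2 : ℝ) ^ (k' + 1) := hkpow
      have h8 : (2 : ℝ) ^ (k' + 1) ≤ (2 : ℝ) ^ (k' + 2) := pow_le_pow_right₀ (by norm_num) (by omega)
      calc C < k1 := h6
        _ ≤ (2 : ℝ) ^ (k' + 2) := by linarith
        _ ≤ _ := h4
    obtain ⟨P, hP1, hP2, hP3⟩ := approx_ok hd w B (dk k) ξ hw hB1 (ℓ ^ m k)
      (Nat.one_le_pow _ _ hℓ.pos) (p k) hpB happ hbig
    refine ⟨(p k : ℝ) / ((ℓ ^ m k : ℕ) : ℝ) + rt d, ⟨P, hP1, hP2, hP3⟩, ?_, ?_⟩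
    · push_cast
      change 0 < |ξ - α|
      rw [habs]; linarith [hdiff.1]
    · push_cast
      change |ξ - α| < ε
      rw [habs]; linarith [hdiff.2]
  refine ⟨ξ, hav, ?_, ?_, ?_, ?_⟩
  · have := hup D1 (by simp)
    simp only [hWn, if_true] at this
    exact this
  · have := hup D2 (by simp)
    have hne : ¬ D2 = D1 := by omega
    simp only [hWn, if_neg hne] at this
    exact this
  · apply hlow 1 w1 (fun k => Even k) le_rfl (by linarith)
    · intro k hk
      exact ⟨by simp only [hbe, if_pos hk], by simp only [hee, if_pos hk]⟩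
    · intro k0
      exact ⟨2 * k0, by omega, even_two_mul k0⟩
  · apply hlow (D1 + 1) w2 (fun k => ¬ Even k) (by omega) (by linarith)
    · intro k hk
      exact ⟨by simp only [hbe, if_neg hk], by simp only [hee, if_neg hk]⟩
    · intro k0
      refine ⟨2 * k0 + 1, by omega, ?_⟩
      rw [Nat.not_even_iff_odd]
      exact odd_two_mul_add_one k0

end Pool.Agent.TH970.SE
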